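import Mathlib
import Pool.Agent.R944.DB.Main
import Pool.Agent.R944.DB.Par
import Pool.Agent.R944.DB.Dep
import Pool.Agent.R944.DB.Ord
import Pool.Agent.R944.DB.Hal
import Pool.Agent.R944.DB.Sel
import Pool.Agent.R944.DB.Gre
import Pool.Agent.R944.DB.Fun

set_option autoImplicit false

/-!
# Diameter-bounded arboricity: the bound `a_d ≤ 2 a_∞` is not sharp for any `d ≥ 4`

For `k ≥ 4100` every finite graph of arboricity `k` is the edge-disjoint union of `2k - 1` forests all of whose
components have diameter at most `4`. Orient the graph with out-degrees at most `k`. Remove the vertices one
after the other, always one vertex `w` for which the sum of `1 / (remaining out-degree)` over its remaining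
in-neighbours is at most `1` (it exists by averaging). In the reverse order, by Hall's theorem every vertex with
at least `k - 4` out-neighbours can choose five of them so that every vertex sees at most five chosen edges of
its own and one more chosen edge to earlier vertices. The chosen edges form a `6`-degenerate graph, which splits
greedily in nine forests of depth at most two; the other edges have out-degree at most `k - 5` and split in
`k - 5` functional graphs, each of which splits in two forests of depth at most two.
-/

namespace Pool.Agent.Results.MP_e7fd15_co.NoSharpness

open Pool.Agent.R944.DB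

theorem result :
    (∀ k, 4100 ≤ k → ∀ (V : Type) [Fintype V] (G : SimpleGraph V), arb G = k →
      arbD 4 G ≤ 2 * k - 1) ∧
    ¬ ∃ d, 4 ≤ d ∧ ∀ k, 1 ≤ k → ∃ (V : Type) (_ : Fintype V) (G : SimpleGraph V),
      arb G = k ∧ arbD d G = 2 * k :=
  Main.final (Main.main Par.main Dep.main (Sel.main Ord.main Hal.main) Gre.main Fun.main)

end Pool.Agent.Results.MP_e7fd15_co.NoSharpness
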